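import Mathlib
import Pool.Agent.V11211.MM6

/-!
MP_703902_co, Q1: there is an infinite connected vertex-transitive graph of bounded degree in which
every vertex is `0`-positive, namely the infinite ladder `ℤ × K₂`.

Proof.  Let `u = (a,b)` and let `v = (a,!b)` be its neighbour on the same rung.  The path tree of
`G - u` at `v` carries an explicit `ℓ²` vector in the kernel of its adjacency operator with value
`1` at the root: a path leaving `v` moves away from `v`, and whenever a vertex of odd depth has
parent value `p` and both a child on the same rung and a child straight ahead, both children get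
the value `-p/2`.  Its squared norm is at most `6`, so `ν_{G-u,v}({0}) ≥ 1/6`.
-/

namespace Pool.Agent.Results.MP_703902_co.LadderZeroPositive

open V11211.MM

theorem ladder_adj_iff (p q : LV) : ladder.Adj p q ↔
    (p.2 = q.2 ∧ (q.1 = p.1 + 1 ∨ p.1 = q.1 + 1)) ∨ (p.1 = q.1 ∧ p.2 ≠ q.2) := Iff.rfl

theorem reach_row (s : Bool) (x : ℤ) : ladder.Reachable (0, s) (x, s) := by
  induction x using Int.induction_on with
  | zero => exact SimpleGraph.Reachable.refl _
  | succ n ih =>
    refine ih.trans (SimpleGraph.Adj.reachable ?_)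
    rw [ladder_adj_iff]
    exact Or.inl ⟨rfl, Or.inl rfl⟩
  | pred n ih =>
    refine ih.trans (SimpleGraph.Adj.reachable ?_)
    rw [ladder_adj_iff]
    exact Or.inl ⟨rfl, Or.inr (by simp)⟩

theorem reach_zero (p : LV) : ladder.Reachable (0, false) p := by
  obtain ⟨x, s⟩ := p
  cases s with
  | false => exact reach_row false x
  | true =>
    refine SimpleGraph.Reachable.trans (SimpleGraph.Adj.reachable ?_) (reach_row true x)
    rw [ladder_adj_iff]
    exact Or.inr ⟨rfl, by simp⟩

theorem ladder_connected : ladder.Connected := by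
  rw [SimpleGraph.connected_iff]
  exact ⟨fun p q => (reach_zero p).symm.trans (reach_zero q), ⟨(0, false)⟩⟩

theorem nbr_sub (p : LV) :
    ladder.neighborSet p ⊆ ({(p.1 + 1, p.2), (p.1 - 1, p.2), (p.1, !p.2)} : Finset LV) := by
  intro w hw
  have := nb_three (x := p.1) (s := p.2) (w := w) (SimpleGraph.Adj.symm (G := ladder) hw)
  simpa using this

/-- an automorphism of the ladder -/
def shiftAut (c : ℤ) (d : Bool) : ladder ≃g ladder where
  toFun p := (p.1 + c, xor p.2 d)
  invFun p := (p.1 - c, xor p.2 d)
  left_inv p := by simp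
  right_inv p := by simp
  map_rel_iff' := by
    intro p q
    simp only [ladder_adj_iff, Equiv.coe_fn_mk]
    constructor
    · rintro (⟨h1, h2⟩ | ⟨h1, h2⟩)
      · left
        refine ⟨by simpa using h1, ?_⟩
        rcases h2 with h2 | h2
        · left; omega
        · right; omega
      · right
        exact ⟨by omega, fun h => h2 (by rw [h])⟩
    · rintro (⟨h1, h2⟩ | ⟨h1, h2⟩)
      · left
        refine ⟨by rw [h1], ?_⟩
        rcases h2 with h2 | h2
        · left; omega
        · right; omega
      · right
        exact ⟨by omega, fun h => h2 (by simpa using h)⟩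

theorem result : ∃ (V : Type) (G : SimpleGraph V), Infinite V ∧ Countable V ∧ G.Connected ∧
    (∃ D : ℕ, ∀ v, (G.neighborSet v).Finite ∧ (G.neighborSet v).ncard ≤ D) ∧
    (∀ u v, ∃ φ : G ≃g G, φ u = v) ∧
    ∀ u, ZeroPositive G u := by
  refine ⟨LV, ladder, inferInstance, inferInstance, ladder_connected, ⟨3, fun p => ⟨?_, ?_⟩⟩,
    fun u v => ⟨shiftAut (v.1 - u.1) (xor u.2 v.2), ?_⟩, ladder_zeroPositive⟩
  · exact (Finset.finite_toSet _).subset (nbr_sub p)
  · refine (Set.ncard_le_ncard (nbr_sub p) (Finset.finite_toSet _)).trans ?_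
    rw [Set.ncard_coe_finset]
    exact Finset.card_le_three
  · change (u.1 + (v.1 - u.1), xor u.2 (xor u.2 v.2)) = v
    ext
    · simp
    · simp

end Pool.Agent.Results.MP_703902_co.LadderZeroPositive
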